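import Pool.Agent.P8H82.PH.Stm

/-!
# Project PH, package HYP: the hyperbola method
-/

set_option autoImplicit false

namespace Pool.Agent.P8H21.PH

open Filter Topology MeasureTheory Set
open Pool.Agent.P8H82.PH

/-- the density `e^(-θ r) (θ (L - r)^k + k (L - r)^(k-1))` -/
noncomputable def psi (θ L : ℝ) (k : ℕ) (r : ℝ) : ℝ :=
  Real.exp (-(θ * r)) * (θ * (L - r) ^ k + k * (L - r) ^ (k - 1))

theorem psi_cont (θ L : ℝ) (k : ℕ) : Continuous (psi θ L k) := by
  unfold psi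
  fun_prop

theorem psi_nonneg {θ L : ℝ} (hθ : 0 < θ) (k : ℕ) {r : ℝ} (hr : r ≤ L) : 0 ≤ psi θ L k r := by
  unfold psi
  have : 0 ≤ L - r := by linarith
  positivity

theorem hasDeriv_pow (L : ℝ) (k : ℕ) (r : ℝ) :
    HasDerivAt (fun r => (L - r) ^ k) (-(k * (L - r) ^ (k - 1))) r := by
  have h1 : HasDerivAt (fun r : ℝ => L - r) (-1) r := by
    simpa using (hasDerivAt_id r).const_sub L
  have h2 := h1.pow k
  have e : (k : ℝ) * (L - r) ^ (k - 1) * -1 = -(k * (L - r) ^ (k - 1)) := by ring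
  rw [e] at h2
  exact h2

theorem int_psi (θ L : ℝ) (k : ℕ) {s : ℝ} (hs : s ≤ L) :
    ∫ r in Icc s L, psi θ L k r =
      Real.exp (-(θ * s)) * (L - s) ^ k - Real.exp (-(θ * L)) * 0 ^ k := by
  rw [integral_Icc_eq_integral_Ioc, ← intervalIntegral.integral_of_le hs]
  have hd : ∀ r ∈ uIcc s L,
      HasDerivAt (fun r => -(Real.exp (-(θ * r)) * (L - r) ^ k)) (psi θ L k r) r := by
    intro r _
    have h1 : HasDerivAt (fun r : ℝ => Real.exp (-(θ * r))) (Real.exp (-(θ * r)) * (-(θ * 1))) r :=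
      (((hasDerivAt_id r).const_mul θ).neg).exp
    have h2 := (h1.mul (hasDeriv_pow L k r)).neg
    have e : -(Real.exp (-(θ * r)) * (-(θ * 1)) * (L - r) ^ k +
        Real.exp (-(θ * r)) * (-(k * (L - r) ^ (k - 1)))) = psi θ L k r := by
      unfold psi
      ring
    rw [e] at h2
    exact h2
  rw [intervalIntegral.integral_eq_sub_of_hasDerivAt hd ((psi_cont θ L k).intervalIntegrable _ _)]
  rw [sub_self]
  ring

theorem int_exp_psi (θ L : ℝ) (k : ℕ) (hL : 0 ≤ L) :
    ∫ r in Icc 0 L, Real.exp (θ * r) * psi θ L k r =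
      θ * L ^ (k + 1) / (k + 1) + L ^ k - 0 ^ k := by
  rw [integral_Icc_eq_integral_Ioc, ← intervalIntegral.integral_of_le hL]
  have hk : ((k : ℝ) + 1) ≠ 0 := by positivity
  have hd : ∀ r ∈ uIcc 0 L,
      HasDerivAt (fun r => -(θ * ((L - r) ^ (k + 1) / (k + 1)) + (L - r) ^ k))
        (Real.exp (θ * r) * psi θ L k r) r := by
    intro r _
    have h1 := (((hasDeriv_pow L (k + 1) r).div_const ((k : ℝ) + 1)).const_mul θ)
    have h2 := (h1.add (hasDeriv_pow L k r)).neg
    have e : -(θ * (-(((k + 1 : ℕ) : ℝ) * (L - r) ^ (k + 1 - 1)) / ((k : ℝ) + 1)) +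
        -(k * (L - r) ^ (k - 1))) = Real.exp (θ * r) * psi θ L k r := by
      unfold psi
      rw [← mul_assoc, ← Real.exp_add, add_neg_cancel, Real.exp_zero, one_mul, Nat.add_sub_cancel]
      push_cast
      field_simp
      ring
    rw [e] at h2
    exact h2
  have hc : Continuous fun r => Real.exp (θ * r) * psi θ L k r :=
    (by fun_prop : Continuous fun r : ℝ => Real.exp (θ * r)).mul (psi_cont θ L k)
  rw [intervalIntegral.integral_eq_sub_of_hasDerivAt hd (hc.intervalIntegrable _ _)]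
  rw [sub_self, sub_zero, zero_pow (by omega : k + 1 ≠ 0)]
  ring

section

variable {ι : Type} {N u : ι → ℝ} {θ a : ℝ} (hfin : ∀ X : ℝ, {i | N i ≤ X}.Finite)

/-- the sum of the `u i` with `N i ≤ X` -/
noncomputable def SU (u : ι → ℝ) (X : ℝ) : ℝ := ∑ i ∈ (hfin X).toFinset, u i

include hfin in
theorem SU_mono (hu : ∀ i, 0 ≤ u i) : Monotone (SU hfin u) := by
  intro X Y h
  unfold SU
  refine Finset.sum_le_sum_of_subset_of_nonneg ?_ fun i _ _ => hu i
  intro i hi
  simp only [Finite.mem_toFinset, mem_ofPred_eq] at hi ⊢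
  exact hi.trans h

theorem SU_bound (hu : ∀ i, 0 ≤ u i) (hθ : 0 < θ)
    (hlim : Tendsto (fun X : ℝ => (∑ i ∈ (hfin X).toFinset, u i) / X ^ θ) atTop (𝓝 a))
    {ε : ℝ} (hε : 0 < ε) :
    ∃ C : ℝ, 0 ≤ C ∧ ∀ t : ℝ, 1 ≤ t → |SU hfin u t - a * t ^ θ| ≤ ε * t ^ θ + C := by
  have h1 := (Metric.tendsto_nhds.1 hlim ε hε)
  obtain ⟨T, hT⟩ := eventually_atTop.1 h1
  set T₀ := max T 1 with hT₀
  have hT1 : 1 ≤ T₀ := le_max_right _ _
  have hU0 : 0 ≤ SU hfin u T₀ := Finset.sum_nonneg fun i _ => hu i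
  refine ⟨SU hfin u T₀ + |a| * T₀ ^ θ, by positivity, fun t ht => ?_⟩
  have ht0 : 0 < t := by linarith
  have htθ : 0 < t ^ θ := Real.rpow_pos_of_pos ht0 θ
  by_cases h : T₀ ≤ t
  · have h2 := hT t ((le_max_left _ _).trans h)
    rw [Real.dist_eq] at h2
    have h3 : |SU hfin u t - a * t ^ θ| = |SU hfin u t / t ^ θ - a| * t ^ θ := by
      rw [← abs_of_pos htθ, ← abs_mul, abs_of_pos htθ, sub_mul, div_mul_cancel₀ _ htθ.ne']
    rw [h3]
    have h4 : |SU hfin u t / t ^ θ - a| * t ^ θ ≤ ε * t ^ θ :=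
      mul_le_mul_of_nonneg_right h2.le htθ.le
    have h5 : 0 ≤ SU hfin u T₀ + |a| * T₀ ^ θ := by positivity
    linarith
  · rw [not_le] at h
    have h2 : SU hfin u t ≤ SU hfin u T₀ := SU_mono hfin hu h.le
    have h3 : 0 ≤ SU hfin u t := Finset.sum_nonneg fun i _ => hu i
    have h4 : t ^ θ ≤ T₀ ^ θ := Real.rpow_le_rpow ht0.le h.le hθ.le
    calc |SU hfin u t - a * t ^ θ| ≤ |SU hfin u t| + |a * t ^ θ| := abs_sub _ _
      _ = SU hfin u t + |a| * t ^ θ := by rw [abs_of_nonneg h3, abs_mul, abs_of_pos htθ]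
      _ ≤ SU hfin u T₀ + |a| * T₀ ^ θ :=
          add_le_add h2 (mul_le_mul_of_nonneg_left h4 (abs_nonneg a))
      _ ≤ _ := by
          have : 0 ≤ ε * t ^ θ := by positivity
          linarith

/-- the sum divided by `X ^ θ` -/
theorem sum_eq (hN : ∀ i, 1 ≤ N i) {X : ℝ} (hX : 1 < X) (k : ℕ) :
    ∑ i ∈ (hfin X).toFinset, u i * ((X / N i) ^ θ * Real.log (X / N i) ^ k) =
      X ^ θ * ∑ i ∈ (hfin X).toFinset, u i * (Real.exp (-(θ * Real.log (N i))) *
        (Real.log X - Real.log (N i)) ^ k) := by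
  rw [Finset.mul_sum]
  refine Finset.sum_congr rfl fun i _ => ?_
  have hX0 : 0 < X := by linarith
  have hN0 : 0 < N i := lt_of_lt_of_le one_pos (hN i)
  rw [Real.div_rpow hX0.le hN0.le, Real.log_div hX0.ne' hN0.ne', Real.exp_neg, mul_comm θ,
    ← Real.rpow_def_of_pos hN0]
  field_simp

theorem sum_integral (hN : ∀ i, 1 ≤ N i) {X : ℝ} (hX : 1 < X) (k : ℕ) :
    ∑ i ∈ (hfin X).toFinset, u i * (Real.exp (-(θ * Real.log (N i))) *
        (Real.log X - Real.log (N i)) ^ k) =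
      Real.exp (-(θ * Real.log X)) * 0 ^ k * SU hfin u X +
        ∫ r in Icc 0 (Real.log X), SU hfin u (Real.exp r) * psi θ (Real.log X) k r := by
  set L := Real.log X with hL
  have hX0 : 0 < X := by linarith
  have hr : ∀ i ∈ (hfin X).toFinset, 0 ≤ Real.log (N i) ∧ Real.log (N i) ≤ L := by
    intro i hi
    simp only [Finite.mem_toFinset, mem_ofPred_eq] at hi
    exact ⟨Real.log_nonneg (hN i), Real.log_le_log (lt_of_lt_of_le one_pos (hN i)) hi⟩
  have h1 : ∀ i ∈ (hfin X).toFinset, u i * (Real.exp (-(θ * Real.log (N i))) *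
      (L - Real.log (N i)) ^ k) = Real.exp (-(θ * L)) * 0 ^ k * u i +
        ∫ r in Icc 0 L, (Ici (Real.log (N i))).indicator (fun r => u i * psi θ L k r) r := by
    intro i hi
    obtain ⟨h2, h3⟩ := hr i hi
    rw [setIntegral_indicator measurableSet_Ici]
    have h4 : Icc 0 L ∩ Ici (Real.log (N i)) = Icc (Real.log (N i)) L := by
      ext r
      simp only [mem_inter_iff, mem_Icc, mem_Ici]
      constructor
      · rintro ⟨⟨_, h⟩, h'⟩; exact ⟨h', h⟩
      · rintro ⟨h, h'⟩; exact ⟨⟨h2.trans h, h'⟩, h⟩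
    rw [h4, integral_const_mul, int_psi θ L k h3]
    ring
  rw [Finset.sum_congr rfl h1, Finset.sum_add_distrib, ← Finset.mul_sum,
    ← integral_finsetSum]
  · congr 1
    refine setIntegral_congr_fun measurableSet_Icc fun r hr' => ?_
    have hrX : Real.exp r ≤ X := by
      rw [← Real.exp_log hX0]
      exact Real.exp_le_exp.2 hr'.2
    have h5 : (hfin (Real.exp r)).toFinset =
        (hfin X).toFinset.filter fun i => Real.log (N i) ≤ r := by
      ext i
      simp only [Finite.mem_toFinset, mem_ofPred_eq, Finset.mem_filter]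
      rw [Real.log_le_iff_le_exp (lt_of_lt_of_le one_pos (hN i))]
      exact ⟨fun h => ⟨h.trans hrX, h⟩, fun h => h.2⟩
    change ∑ i ∈ (hfin X).toFinset, (Ici (Real.log (N i))).indicator
      (fun r => u i * psi θ L k r) r = SU hfin u (Real.exp r) * psi θ L k r
    unfold SU
    rw [h5, Finset.sum_filter, Finset.sum_mul]
    refine Finset.sum_congr rfl fun i _ => ?_
    by_cases h : Real.log (N i) ≤ r
    · rw [indicator_of_mem (show r ∈ Ici (Real.log (N i)) from h), if_pos h]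
    · rw [indicator_of_notMem (show r ∉ Ici (Real.log (N i)) from h), if_neg h, zero_mul]
  · intro i _
    refine Integrable.indicator ?_ measurableSet_Ici
    exact ((continuous_const.mul (psi_cont θ L k)).integrableOn_Icc)

theorem main_bound (hN : ∀ i, 1 ≤ N i) (hu : ∀ i, 0 ≤ u i) (hθ : 0 < θ) {ε C : ℝ} (hε : 0 < ε)
    (hC : 0 ≤ C) (hb : ∀ t : ℝ, 1 ≤ t → |SU hfin u t - a * t ^ θ| ≤ ε * t ^ θ + C)
    {X : ℝ} (hX : 1 < X) (k : ℕ) :
    |∑ i ∈ (hfin X).toFinset, u i * (Real.exp (-(θ * Real.log (N i))) *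
        (Real.log X - Real.log (N i)) ^ k) - a * (θ * Real.log X ^ (k + 1) / (k + 1))| ≤
      ε * (θ * Real.log X ^ (k + 1) / (k + 1)) + (ε + C + |a|) * Real.log X ^ k := by
  set L := Real.log X with hL
  have hX0 : 0 < X := by linarith
  have hL0 : 0 ≤ L := Real.log_nonneg hX.le
  have hXθ : X ^ θ = Real.exp (θ * L) := by rw [Real.rpow_def_of_pos hX0, mul_comm]
  have he : ∀ r : ℝ, (Real.exp r) ^ θ = Real.exp (θ * r) := fun r => by
    rw [← Real.exp_mul, mul_comm]
  have hpsi := psi_cont θ L k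
  have hce : Continuous fun r : ℝ => Real.exp (θ * r) := by fun_prop
  have hUi : IntegrableOn (fun r => SU hfin u (Real.exp r) * psi θ L k r) (Icc 0 L) := by
    have h1 : MonotoneOn (fun r => SU hfin u (Real.exp r)) (Icc 0 L) :=
      ((SU_mono hfin hu).comp Real.exp_monotone).monotoneOn _
    exact (h1.integrableOn_isCompact isCompact_Icc).mul_continuousOn hpsi.continuousOn
      isCompact_Icc
  have hAi : IntegrableOn (fun r => Real.exp (θ * r) * psi θ L k r) (Icc 0 L) :=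
    (hce.mul hpsi).integrableOn_Icc
  have hPi : IntegrableOn (fun r => psi θ L k r) (Icc 0 L) := hpsi.integrableOn_Icc
  have hI1 := int_exp_psi θ L k hL0
  have hI0 := int_psi θ L k (s := 0) hL0
  rw [mul_zero, neg_zero, Real.exp_zero, one_mul, sub_zero] at hI0
  have hdiff : |(∫ r in Icc 0 L, SU hfin u (Real.exp r) * psi θ L k r) -
      a * (θ * L ^ (k + 1) / (k + 1) + L ^ k - 0 ^ k)| ≤
      ε * (θ * L ^ (k + 1) / (k + 1) + L ^ k - 0 ^ k) +
        C * (L ^ k - Real.exp (-(θ * L)) * 0 ^ k) := by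
    rw [← hI1, ← hI0, ← integral_const_mul, ← integral_const_mul, ← integral_const_mul,
      ← integral_sub hUi (hAi.const_mul a), ← integral_add (hAi.const_mul ε) (hPi.const_mul C)]
    rw [← Real.norm_eq_abs]
    refine norm_integral_le_of_norm_le ((hAi.const_mul ε).add (hPi.const_mul C)) ?_
    refine (ae_restrict_iff' measurableSet_Icc).2 (Eventually.of_forall fun r hr => ?_)
    have h1 := hb (Real.exp r) (Real.one_le_exp hr.1)
    rw [he] at h1
    have h2 : 0 ≤ psi θ L k r := psi_nonneg hθ k hr.2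
    have e1 : SU hfin u (Real.exp r) * psi θ L k r - a * (Real.exp (θ * r) * psi θ L k r) =
        (SU hfin u (Real.exp r) - a * Real.exp (θ * r)) * psi θ L k r := by ring
    rw [e1, Real.norm_eq_abs, abs_mul, abs_of_nonneg h2]
    have e2 : ε * (Real.exp (θ * r) * psi θ L k r) + C * psi θ L k r =
        (ε * Real.exp (θ * r) + C) * psi θ L k r := by ring
    rw [e2]
    exact mul_le_mul_of_nonneg_right h1 h2
  have h0k : (0 : ℝ) ≤ 0 ^ k := by positivity
  have hdiff0 : |Real.exp (-(θ * L)) * 0 ^ k * SU hfin u X - a * 0 ^ k| ≤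
      ε * 0 ^ k + C * (Real.exp (-(θ * L)) * 0 ^ k) := by
    have h1 := hb X hX.le
    rw [hXθ] at h1
    have hee : Real.exp (-(θ * L)) * Real.exp (θ * L) = 1 := by
      rw [← Real.exp_add, neg_add_cancel, Real.exp_zero]
    have e1 : Real.exp (-(θ * L)) * 0 ^ k * SU hfin u X - a * 0 ^ k =
        (Real.exp (-(θ * L)) * 0 ^ k) * (SU hfin u X - a * Real.exp (θ * L)) := by
      linear_combination (a * 0 ^ k) * hee
    rw [e1, abs_mul, abs_of_nonneg (by positivity)]
    have h2 := mul_le_mul_of_nonneg_left h1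
      (show 0 ≤ Real.exp (-(θ * L)) * (0 : ℝ) ^ k by positivity)
    refine h2.trans (le_of_eq ?_)
    linear_combination (ε * 0 ^ k) * hee
  rw [sum_integral hfin hN hX k]
  have e3 : Real.exp (-(θ * L)) * 0 ^ k * SU hfin u X +
      (∫ r in Icc 0 L, SU hfin u (Real.exp r) * psi θ L k r) -
      a * (θ * L ^ (k + 1) / (k + 1)) =
      ((Real.exp (-(θ * L)) * 0 ^ k * SU hfin u X - a * 0 ^ k) +
      ((∫ r in Icc 0 L, SU hfin u (Real.exp r) * psi θ L k r) -
      a * (θ * L ^ (k + 1) / (k + 1) + L ^ k - 0 ^ k))) + a * L ^ k := by ring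
  rw [e3]
  refine (abs_add_le _ _).trans ?_
  have h4 := (abs_add_le (Real.exp (-(θ * L)) * 0 ^ k * SU hfin u X - a * 0 ^ k)
    ((∫ r in Icc 0 L, SU hfin u (Real.exp r) * psi θ L k r) -
      a * (θ * L ^ (k + 1) / (k + 1) + L ^ k - 0 ^ k))).trans (add_le_add hdiff0 hdiff)
  have h5 : |a * L ^ k| = |a| * L ^ k := by
    rw [abs_mul, abs_of_nonneg (show 0 ≤ L ^ k by positivity)]
  rw [h5]
  linarith

end

theorem hyp : S_HYP := by
  intro ι N u θ a hfin hN hu hθ hlim k
  have hk : (0 : ℝ) < (k : ℝ) + 1 := by positivity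
  rw [Metric.tendsto_nhds]
  intro δ hδ
  set ε : ℝ := δ * (k + 1) / (4 * θ) with hε
  have hε0 : 0 < ε := by positivity
  obtain ⟨C, hC, hb⟩ := SU_bound hfin hu hθ hlim hε0
  have hlog : ∀ᶠ X : ℝ in atTop, (ε + C + |a|) * 4 / δ + 1 < Real.log X :=
    Real.tendsto_log_atTop.eventually_gt_atTop _
  filter_upwards [hlog, eventually_gt_atTop 1] with X hX1 hX
  have hX0 : 0 < X := by linarith
  have hXθ : 0 < X ^ θ := Real.rpow_pos_of_pos hX0 θ
  set L := Real.log X with hL
  have hD0 : 0 ≤ (ε + C + |a|) * 4 / δ := by positivity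
  have hL0 : 0 < L := by linarith
  have h1 := main_bound hfin hN hu hθ hε0 hC hb hX k
  rw [sum_eq hfin hN hX k, mul_div_mul_left _ _ hXθ.ne', Real.dist_eq]
  set D := ∑ i ∈ (hfin X).toFinset, u i * (Real.exp (-(θ * Real.log (N i))) *
        (Real.log X - Real.log (N i)) ^ k) with hD
  have hLk : 0 < L ^ (k + 1) := by positivity
  have e1 : D / L ^ (k + 1) - a * θ / (k + 1) =
      (D - a * (θ * L ^ (k + 1) / (k + 1))) / L ^ (k + 1) := by
    field_simp
  rw [e1, abs_div, abs_of_pos hLk, div_lt_iff₀ hLk]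
  refine lt_of_le_of_lt h1 ?_
  have h2 : ε * (θ * L ^ (k + 1) / (k + 1)) = δ / 4 * L ^ (k + 1) := by
    rw [hε]
    field_simp
  have h3 : (ε + C + |a|) * L ^ k ≤ δ / 4 * L ^ (k + 1) := by
    rw [pow_succ]
    have h4 : ε + C + |a| ≤ δ / 4 * L := by
      have h5 : (ε + C + |a|) * 4 / δ ≤ L := by linarith
      rw [div_le_iff₀ hδ] at h5
      linarith
    have h6 : 0 < L ^ k := by positivity
    nlinarith
  rw [h2]
  nlinarith

end Pool.Agent.P8H21.PH
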