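import Pool.Agent.P8H82.PH.Stm

/-!
# Project PH, package WEAK: averages of monotone continuous functions of the values
-/

set_option autoImplicit false

namespace Pool.Agent.P8H21.PH

open Filter Topology MeasureTheory
open Pool.Agent.P8H82.PH

/-- the sets `c ≤ G` -/
theorem upper_cases (G : ℝ → ℝ) (hG : Continuous G) (hm : Monotone G) (c : ℝ) :
    (∀ z, ¬ c ≤ G z) ∨ (∀ z, c ≤ G z) ∨ ∃ b, ∀ z, c ≤ G z ↔ b ≤ z := by
  by_cases h1 : ∀ z, ¬ c ≤ G z
  · exact Or.inl h1
  by_cases h2 : ∀ z, c ≤ G z
  · exact Or.inr (Or.inl h2)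
  right; right
  push Not at h1 h2
  obtain ⟨z1, hz1⟩ := h1
  obtain ⟨z0, hz0⟩ := h2
  set S : Set ℝ := {z | c ≤ G z} with hS
  have hSc : IsClosed S := isClosed_le continuous_const hG
  have hbdd : BddBelow S := ⟨z0, fun z hz => by
    by_contra hlt
    rw [not_le] at hlt
    have h3 := hm hlt.le
    have h4 : c ≤ G z := hz
    linarith⟩
  have hb : sInf S ∈ S := hSc.csInf_mem ⟨z1, hz1⟩ hbdd
  refine ⟨sInf S, fun z => ⟨fun hz => csInf_le hbdd hz, fun hz => ?_⟩⟩
  have h5 : c ≤ G (sInf S) := hb
  exact h5.trans (hm hz)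

/-- step functions -/
noncomputable def st (m : ℕ) (z : ℝ) : ℝ :=
  (∑ j ∈ Finset.range m, if ((j : ℝ) + 1) / m ≤ z then (1 : ℝ) else 0) / m

theorem st_close {m : ℕ} (hm : 0 < m) {z : ℝ} (h0 : 0 ≤ z) (h1 : z ≤ 1) :
    |z - st m z| ≤ 1 / m := by
  have hm' : (0 : ℝ) < m := by exact_mod_cast hm
  have hmz : 0 ≤ (m : ℝ) * z := by positivity
  have e1 : (∑ j ∈ Finset.range m, if ((j : ℝ) + 1) / m ≤ z then (1 : ℝ) else 0) =
      (⌊(m : ℝ) * z⌋₊ : ℝ) := by
    rw [← Finset.sum_filter, Finset.sum_const, nsmul_eq_mul, mul_one]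
    congr 1
    have e2 : (Finset.range m).filter (fun j : ℕ => ((j : ℝ) + 1) / m ≤ z) =
        Finset.range ⌊(m : ℝ) * z⌋₊ := by
      ext j
      simp only [Finset.mem_filter, Finset.mem_range]
      have h2 : ((j : ℝ) + 1) / m ≤ z ↔ j < ⌊(m : ℝ) * z⌋₊ := by
        rw [div_le_iff₀ hm', ← Nat.succ_le_iff, Nat.le_floor_iff hmz]
        push_cast
        rw [mul_comm z]
      rw [h2]
      refine ⟨fun h => h.2, fun h => ⟨?_, h⟩⟩
      have h3 : ⌊(m : ℝ) * z⌋₊ ≤ m := by
        have h4 : (m : ℝ) * z ≤ m := by nlinarith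
        exact_mod_cast (Nat.floor_le hmz).trans h4
      omega
    rw [e2, Finset.card_range]
  have h2 := Nat.floor_le hmz
  have h3 := Nat.lt_floor_add_one ((m : ℝ) * z)
  unfold st
  rw [e1]
  have h4 : z - (⌊(m : ℝ) * z⌋₊ : ℝ) / m = ((m : ℝ) * z - ⌊(m : ℝ) * z⌋₊) / m := by
    field_simp
  rw [h4, abs_div, abs_of_pos hm', abs_of_nonneg (by linarith)]
  exact div_le_div_of_nonneg_right (by linarith) hm'.le

theorem weak : S_WEAK := by
  intro ι N h θ A μ hF G hGc hGm hG01 x
  classical
  have := hF.prob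
  -- the total number
  have htot : Tendsto (fun X : ℝ => ((hF.fin X).toFinset.card : ℝ) / X ^ θ) atTop (𝓝 A) := by
    refine hF.tot.congr fun X => ?_
    rw [Set.ncard_eq_toFinset_card _ (hF.fin X)]
  -- the numbers with `c ≤ G (x - h i)`
  have hcount : ∀ c : ℝ, Tendsto (fun X : ℝ =>
      (((hF.fin X).toFinset.filter fun i => c ≤ G (x - h i)).card : ℝ) / X ^ θ) atTop
      (𝓝 (A * μ.real {y | c ≤ G (x - y)})) := by
    intro c
    rcases upper_cases G hGc hGm c with h1 | h1 | ⟨b, h1⟩
    · have e1 : {y | c ≤ G (x - y)} = (∅ : Set ℝ) := by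
        ext y
        simp [h1]
      have e2 : ∀ X : ℝ, (hF.fin X).toFinset.filter (fun i => c ≤ G (x - h i)) = ∅ := fun X => by
        ext i
        simp [h1]
      simp [e1, e2]
    · have e1 : {y | c ≤ G (x - y)} = (Set.univ : Set ℝ) := by
        ext y
        simp [h1]
      have e2 : ∀ X : ℝ, (hF.fin X).toFinset.filter (fun i => c ≤ G (x - h i)) =
          (hF.fin X).toFinset := fun X => by
        ext i
        simp [h1]
      simp only [e1, e2, probReal_univ, mul_one]
      exact htot
    · have e1 : {y | c ≤ G (x - y)} = Set.Iic (x - b) := by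
        ext y
        simp only [Set.mem_ofPred_eq, Set.mem_Iic, h1]
        constructor <;> intro h2 <;> linarith
      have e2 : ∀ X : ℝ, (((hF.fin X).toFinset.filter fun i => c ≤ G (x - h i)).card : ℝ) =
          ({i | N i ≤ X ∧ h i ≤ x - b}.ncard : ℝ) := fun X => by
        rw [← Set.ncard_coe_finset]
        congr 2
        ext i
        simp only [Finset.coe_filter, Set.Finite.mem_toFinset, Set.mem_ofPred_eq, h1]
        constructor
        · rintro ⟨h2, h3⟩; exact ⟨h2, by linarith⟩
        · rintro ⟨h2, h3⟩; exact ⟨h2, by linarith⟩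
      simp only [e1, e2]
      exact hF.law (x - b)
  -- the step functions
  have hstep : ∀ m : ℕ, Tendsto (fun X : ℝ =>
      (∑ i ∈ (hF.fin X).toFinset, st m (G (x - h i))) / X ^ θ) atTop
      (𝓝 (A * ∫ y, st m (G (x - y)) ∂μ)) := by
    intro m
    have e1 : ∀ X : ℝ, (∑ i ∈ (hF.fin X).toFinset, st m (G (x - h i))) / X ^ θ =
        (∑ j ∈ Finset.range m, (((hF.fin X).toFinset.filter
          fun i => ((j : ℝ) + 1) / m ≤ G (x - h i)).card : ℝ) / X ^ θ) / m := by
      intro X
      unfold st
      rw [← Finset.sum_div, Finset.sum_comm, ← Finset.sum_div, div_right_comm]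
      congr 2
      refine Finset.sum_congr rfl fun j _ => ?_
      rw [← Finset.sum_filter, Finset.sum_const, nsmul_eq_mul, mul_one]
    have e2 : A * ∫ y, st m (G (x - y)) ∂μ =
        (∑ j ∈ Finset.range m, A * μ.real {y | ((j : ℝ) + 1) / m ≤ G (x - y)}) / m := by
      unfold st
      rw [integral_div, integral_finsetSum]
      · rw [← Finset.mul_sum, mul_div_assoc]
        congr 2
        refine Finset.sum_congr rfl fun j _ => ?_
        have hmeas : MeasurableSet {y | ((j : ℝ) + 1) / m ≤ G (x - y)} :=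
          (isClosed_le continuous_const (by fun_prop)).measurableSet
        rw [← integral_indicator_one hmeas]
        refine integral_congr_ae (Eventually.of_forall fun y => ?_)
        simp only [Set.indicator_apply, Set.mem_ofPred_eq, Pi.one_apply]
      · intro j _
        have hmeas : MeasurableSet {y | ((j : ℝ) + 1) / m ≤ G (x - y)} :=
          (isClosed_le continuous_const (by fun_prop)).measurableSet
        have h2 : Integrable (Set.indicator {y | ((j : ℝ) + 1) / m ≤ G (x - y)}
          (fun _ => (1 : ℝ))) μ := (integrable_const (1 : ℝ)).indicator hmeas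
        refine h2.congr (Eventually.of_forall fun y => ?_)
        simp only [Set.indicator_apply, Set.mem_ofPred_eq]
    rw [e2]
    refine Tendsto.congr (fun X => (e1 X).symm) ?_
    exact (tendsto_finsetSum _ fun j _ => hcount _).div_const _
  -- conclusion
  rw [Metric.tendsto_nhds]
  intro ε hε
  have hA := hF.Apos
  obtain ⟨m, hm⟩ := exists_nat_gt (3 * (2 * A + 1) / ε)
  have hm0' : (0 : ℝ) < m := lt_of_le_of_lt (by positivity) hm
  have hm0 : 0 < m := by exact_mod_cast hm0'
  have hmε : (2 * A + 1) / m ≤ ε / 3 := by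
    rw [div_le_iff₀ hm0']
    rw [div_lt_iff₀ hε] at hm
    nlinarith
  have h1 := (Metric.tendsto_nhds.1 (hstep m)) (ε / 3) (by positivity)
  have h2 := htot.eventually (gt_mem_nhds (show A < A + 1 by linarith))
  filter_upwards [h1, h2, eventually_gt_atTop 0] with X h3 h4 hX
  have hXθ : 0 < X ^ θ := Real.rpow_pos_of_pos hX θ
  set S := (∑ i ∈ (hF.fin X).toFinset, G (x - h i)) / X ^ θ with hS
  set Sm := (∑ i ∈ (hF.fin X).toFinset, st m (G (x - h i))) / X ^ θ with hSm
  set I := ∫ y, G (x - y) ∂μ with hI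
  set Im := ∫ y, st m (G (x - y)) ∂μ with hIm
  have h5 : |S - Sm| ≤ (A + 1) / m := by
    rw [hS, hSm, ← sub_div, ← Finset.sum_sub_distrib, abs_div, abs_of_pos hXθ]
    have h6 : |∑ i ∈ (hF.fin X).toFinset, (G (x - h i) - st m (G (x - h i)))| ≤
        ((hF.fin X).toFinset.card : ℝ) * (1 / m) := by
      refine (Finset.abs_sum_le_sum_abs _ _).trans ?_
      rw [← nsmul_eq_mul, ← Finset.sum_const]
      exact Finset.sum_le_sum fun i _ => st_close hm0 (hG01 _).1 (hG01 _).2
    calc _ ≤ ((hF.fin X).toFinset.card : ℝ) * (1 / m) / X ^ θ :=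
          div_le_div_of_nonneg_right h6 hXθ.le
      _ = ((hF.fin X).toFinset.card : ℝ) / X ^ θ * (1 / m) := by ring
      _ ≤ (A + 1) * (1 / m) := mul_le_mul_of_nonneg_right h4.le (by positivity)
      _ = _ := by ring
  have hGi : Integrable (fun y => G (x - y)) μ := by
    refine (memLp_one_iff_integrable.1 (MemLp.of_bound ?_ 1 (Eventually.of_forall fun y => ?_)))
    · exact (by fun_prop : Continuous fun y => G (x - y)).aestronglyMeasurable
    · rw [Real.norm_eq_abs, abs_of_nonneg (hG01 _).1]
      exact (hG01 _).2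
  have hsti : Integrable (fun y => st m (G (x - y))) μ := by
    refine (memLp_one_iff_integrable.1 (MemLp.of_bound ?_ (1 + 1 / m)
      (Eventually.of_forall fun y => ?_)))
    · refine Measurable.aestronglyMeasurable ?_
      unfold st
      refine Measurable.div_const (Finset.measurable_sum _ fun j _ => ?_) _
      exact Measurable.ite
        (isClosed_le continuous_const (by fun_prop : Continuous fun y => G (x - y))).measurableSet
        measurable_const measurable_const
    · have h7 := st_close hm0 (hG01 (x - y)).1 (hG01 (x - y)).2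
      rw [abs_le] at h7
      rw [Real.norm_eq_abs, abs_le]
      have h8 := hG01 (x - y)
      constructor <;> linarith [h7.1, h7.2, h8.1, h8.2,
        (show (0 : ℝ) ≤ 1 / m by positivity)]
  have h6 : |Im - I| ≤ 1 / m := by
    rw [hIm, hI, ← integral_sub hsti hGi, ← Real.norm_eq_abs]
    have h7 := norm_integral_le_of_norm_le_const (μ := μ)
      (f := fun y => st m (G (x - y)) - G (x - y)) (C := 1 / m)
      (Eventually.of_forall fun y => by
        rw [Real.norm_eq_abs, abs_sub_comm]
        exact st_close hm0 (hG01 _).1 (hG01 _).2)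
    rwa [probReal_univ, mul_one] at h7
  rw [Real.dist_eq] at h3 ⊢
  have e3 : S - A * I = (S - Sm) + (Sm - A * Im) + A * (Im - I) := by ring
  rw [e3]
  have h8 : |A * (Im - I)| ≤ A * (1 / m) := by
    rw [abs_mul, abs_of_pos hA]
    exact mul_le_mul_of_nonneg_left h6 hA.le
  have h9 : (A + 1) / m + A * (1 / m) = (2 * A + 1) / m := by ring
  calc |(S - Sm) + (Sm - A * Im) + A * (Im - I)|
      ≤ |S - Sm| + |Sm - A * Im| + |A * (Im - I)| := abs_add_three _ _ _
    _ < ε := by linarith

end Pool.Agent.P8H21.PH
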